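import Pool.Agent.X69.KG.Fin

/-!
# Metric pair correlation of prime multiples in dimension `d`

Q1 has a positive answer: for every `d ≥ 2` and almost every `α ∈ ℝ ^ d` the sequence `{p_n α}` does not have
Poissonian pair correlations. Moreover, for almost every `α` the pair correlation function is unbounded for every
`s > 0`: its upper limit as `N → ∞` is infinite. The same holds for every sequence of integers `a_n` with
`a_n = O(n log n)`.

The proof: by the divergence part of the theorem of Khinchin and Groshev for one linear form in `d` variables (here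
a consequence of the pairwise independence of the events for pairwise linearly independent vectors) there are for
almost every `α` and every `η > 0` infinitely many integer vectors `v` with `‖v · α‖ < η / (|v| ^ d log |v|)`. For
`N` of the order of `|v| ^ d` all points `{p_n α}`, `n ≤ N`, are then close to the parallel hyperplanes
`v · x ∈ ℤ`. These meet few of the cubes of side length `s / N ^ (1 / d)`, so that there are many close pairs.
-/

set_option autoImplicit false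

namespace Pool.Agent.Results.MP_29df5b_nt.PrimesFail

open Filter Topology MeasureTheory

/-- The points `{a_n α} ∈ [0, 1) ^ d`. -/
noncomputable def points {d : ℕ} (a : ℕ → ℤ) (α : Fin d → ℝ) (n : ℕ) : Fin d → ℝ :=
  fun i => Int.fract ((a n : ℝ) * α i)

/-- The number of the pairs `(k, l)` with `1 ≤ k, l ≤ N`, `k ≠ l` and `‖x_k - x_l‖ < s / N ^ (1 / d)` for the
maximum norm. -/
noncomputable def pairs {d : ℕ} (x : ℕ → Fin d → ℝ) (s : ℝ) (N : ℕ) : ℕ :=
  {p : ℕ × ℕ | 1 ≤ p.1 ∧ p.1 ≤ N ∧ 1 ≤ p.2 ∧ p.2 ≤ N ∧ p.1 ≠ p.2 ∧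
    ‖x p.1 - x p.2‖ < s / (N : ℝ) ^ (1 / (d : ℝ))}.ncard

/-- Poissonian pair correlations of the sequence `x_1, x_2, ...` in `[0, 1) ^ d`. -/
def PPC {d : ℕ} (x : ℕ → Fin d → ℝ) : Prop :=
  ∀ s : ℝ, 0 < s → Tendsto (fun N : ℕ => 1 / (N : ℝ) * pairs x s N) atTop (𝓝 ((2 * s) ^ d))

/-- The `n`-th prime, `p_1 = 2`. -/
noncomputable def prime (n : ℕ) : ℤ := (Nat.nth Nat.Prime (n - 1) : ℤ)

/-- For every `s > 0` the upper limit of the pair correlation function as `N → ∞` is infinite. -/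
def Unbounded {d : ℕ} (x : ℕ → Fin d → ℝ) : Prop :=
  ∀ s : ℝ, 0 < s → ∀ K : ℝ, ∃ᶠ N : ℕ in atTop, K ≤ 1 / (N : ℝ) * pairs x s N

theorem not_ppc {d : ℕ} (x : ℕ → Fin d → ℝ) (h : Unbounded x) : ¬ PPC x := by
  intro hp
  have h1 := hp 1 one_pos
  have h2 : ∀ᶠ N : ℕ in atTop, 1 / (N : ℝ) * pairs x 1 N < (2 * 1) ^ d + 1 :=
    h1.eventually (gt_mem_nhds (by linarith))
  obtain ⟨N, h3, h4⟩ := ((h 1 one_pos ((2 * 1) ^ d + 1)).and_eventually h2).exists
  linarith

theorem general (d : ℕ) (hd : 2 ≤ d) (a : ℕ → ℤ) (A : ℝ) (hA : 0 < A)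
    (ha : ∀ j : ℕ, 1 ≤ j → |(a j : ℝ)| ≤ A * (1 + j * Real.log j)) :
    ∀ᵐ α : Fin d → ℝ, Unbounded (points a α) := by
  obtain ⟨n, rfl⟩ : ∃ n, d = n + 2 := ⟨d - 2, by omega⟩
  filter_upwards [Pool.Agent.X69.KG.ae_pt n] with α hα s hs K
  rw [frequently_atTop]
  intro N₀
  obtain ⟨N, hN, h⟩ := Pool.Agent.X69.KG.many α hα a A hA ha s hs K (max N₀ 1)
  refine ⟨N, (le_max_left _ _).trans hN, ?_⟩
  have hN1 : 1 ≤ N := (le_max_right _ _).trans hN
  have hN0 : (0 : ℝ) < N := by exact_mod_cast hN1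
  have e : {p : ℕ × ℕ | p.1 ∈ Set.Icc 1 N ∧ p.2 ∈ Set.Icc 1 N ∧ p.1 ≠ p.2 ∧
        ‖(fun i => Int.fract ((a p.1 : ℝ) * α i)) - (fun i => Int.fract ((a p.2 : ℝ) * α i))‖ <
          s / (N : ℝ) ^ (1 / ((n + 2 : ℕ) : ℝ))} =
      {p : ℕ × ℕ | 1 ≤ p.1 ∧ p.1 ≤ N ∧ 1 ≤ p.2 ∧ p.2 ≤ N ∧ p.1 ≠ p.2 ∧
    ‖points a α p.1 - points a α p.2‖ < s / (N : ℝ) ^ (1 / ((n + 2 : ℕ) : ℝ))} := by
    ext p
    constructor
    · rintro ⟨h1, h2, h3, h4⟩
      exact ⟨h1.1, h1.2, h2.1, h2.2, h3, h4⟩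
    · rintro ⟨h1, h2, h3, h4, h5, h6⟩
      exact ⟨⟨h1, h2⟩, ⟨h3, h4⟩, h5, h6⟩
  rw [e] at h
  unfold pairs
  rw [one_div, inv_mul_eq_div, le_div_iff₀ hN0]
  exact h

/-- **Answer to Q1**, and generalisation: for every `d ≥ 2`, (1) for almost every `α ∈ ℝ ^ d` the sequence
`{p_n α}` does not have Poissonian pair correlations; (2) for almost every `α` the upper limit of its pair correlation
function is infinite for every `s > 0`; (3) both hold for every sequence of integers `a_n = O(n log n)`. -/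
theorem result (d : ℕ) (hd : 2 ≤ d) :
    (∀ᵐ α : Fin d → ℝ, ¬ PPC (points prime α)) ∧
    (∀ᵐ α : Fin d → ℝ, Unbounded (points prime α)) ∧
    ∀ a : ℕ → ℤ, (∃ C : ℝ, ∀ᶠ n : ℕ in atTop, |(a n : ℝ)| ≤ C * (n * Real.log n)) →
      (∀ᵐ α : Fin d → ℝ, ¬ PPC (points a α)) ∧ ∀ᵐ α : Fin d → ℝ, Unbounded (points a α) := by
  have hp : ∀ᵐ α : Fin d → ℝ, Unbounded (points prime α) := by
    apply general d hd prime 35 (by norm_num)
    intro j hj
    unfold prime
    rw [abs_of_nonneg (by positivity)]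
    exact_mod_cast Pool.Agent.X69.KG.prime_growth j hj
  refine ⟨hp.mono (fun α h => not_ppc _ h), hp, fun a ⟨C, hC⟩ => ?_⟩
  have hg : ∀ᵐ α : Fin d → ℝ, Unbounded (points a α) := by
    obtain ⟨n₀, hn₀⟩ := eventually_atTop.1 hC
    set A : ℝ := |C| + ∑ j ∈ Finset.range n₀, |(a j : ℝ)| + 1 with hA
    have hs : 0 ≤ ∑ j ∈ Finset.range n₀, |(a j : ℝ)| := Finset.sum_nonneg (fun _ _ => abs_nonneg _)
    have hC0 := abs_nonneg C
    apply general d hd a A (by linarith)
    intro j hj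
    have hj1 : (1 : ℝ) ≤ j := by exact_mod_cast hj
    have hl : 0 ≤ (j : ℝ) * Real.log j := mul_nonneg (by linarith) (Real.log_nonneg hj1)
    by_cases h : n₀ ≤ j
    · refine (hn₀ j h).trans ?_
      calc C * (j * Real.log j) ≤ |C| * (j * Real.log j) := mul_le_mul_of_nonneg_right (le_abs_self C) hl
        _ ≤ A * (1 + j * Real.log j) := by nlinarith
    · have h1 : |(a j : ℝ)| ≤ ∑ j ∈ Finset.range n₀, |(a j : ℝ)| :=
        Finset.single_le_sum (f := fun j => |(a j : ℝ)|) (fun _ _ => abs_nonneg _) (Finset.mem_range.2 (by omega))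
      nlinarith
  exact ⟨hg.mono (fun α h => not_ppc _ h), hg⟩

end Pool.Agent.Results.MP_29df5b_nt.PrimesFail
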